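import Mathlib
import Pool.Agent.Lib.Helper71.SemiDihedral2

/-!
# Every semidihedral 2-group is harmonious

With `h = 2^(n-2)`, `X z = a^z`, `Y z = a^z b`, the listing for `n ≥ 5` consists of the two linear
phases `X(h-4-2s), Y(3-2s), Y(9+2s), X(h+3-2s)` and `X(-2-2s), X(1-2s), Y(h-2s), Y(h+8+2s)`,
`0 ≤ s < h/2 - 3`, joined by two fixed segments of lengths 9 and 15 (see
`Pool.Agent.Lib.Helper71.SD.L`); the case `n = 4` has its own listing.
-/

set_option autoImplicit false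

namespace Pool.Agent.Results.MP_3abf0f_al.SemidihedralHarmonious

open Pool.Agent.Lib.Helper71.SD

/-- A group is harmonious if its elements can be listed (each exactly once) as `g₁, …, gₘ` so that
the `m` products `g₁g₂, g₂g₃, …, gₘ₋₁gₘ, gₘg₁` are pairwise distinct.
(`l.rotate 1` is the list `g₂, …, gₘ, g₁`.) -/
def Harmonious (G : Type*) [Group G] : Prop :=
  ∃ l : List G, l.Nodup ∧ (∀ g : G, g ∈ l) ∧ (List.zipWith (· * ·) l (l.rotate 1)).Nodup

/-- The two generators. -/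
inductive Gen | a | b

/-- The relators `a^(2^(n-1))`, `b^2`, `b a b⁻¹ (a^(2^(n-2)-1))⁻¹`. -/
def rels (n : ℕ) : Set (FreeGroup Gen) :=
  {FreeGroup.of Gen.a ^ (2 ^ (n - 1)), FreeGroup.of Gen.b ^ 2,
    FreeGroup.of Gen.b * FreeGroup.of Gen.a * (FreeGroup.of Gen.b)⁻¹ *
      (FreeGroup.of Gen.a ^ (2 ^ (n - 2) - 1))⁻¹}

/-- The semidihedral group
`SD_{2^n} = ⟨a, b | a^(2^(n-1)) = b^2 = 1, b a b⁻¹ = a^(2^(n-2)-1)⟩`. -/
abbrev SemidihedralGroup (n : ℕ) : Type := PresentedGroup (rels n)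

section

variable (n : ℕ)

/-- The generator `a`. -/
def ga : SemidihedralGroup n := PresentedGroup.of Gen.a
/-- The generator `b`. -/
def gb : SemidihedralGroup n := PresentedGroup.of Gen.b

theorem closure_gen : Subgroup.closure {ga n, gb n} = ⊤ := by
  have h := PresentedGroup.closure_range_of (rels n)
  have e : Set.range (PresentedGroup.of : Gen → PresentedGroup (rels n)) = {ga n, gb n} := by
    ext x
    constructor
    · rintro ⟨g, rfl⟩
      cases g
      · exact Or.inl rfl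
      · exact Or.inr rfl
    · rintro (rfl | rfl)
      · exact ⟨Gen.a, rfl⟩
      · exact ⟨Gen.b, rfl⟩
  rw [← e]; exact h

theorem rel_gen (hn : 4 ≤ n) : Rel (ga n) (gb n) (2 ^ (n - 2)) := by
  have hmk : ∀ r ∈ rels n, (PresentedGroup.mk (rels n) r) = 1 := fun r hr =>
    PresentedGroup.one_of_mem hr
  have h1 := hmk _ (show FreeGroup.of Gen.a ^ (2 ^ (n - 1)) ∈ rels n from Or.inl rfl)
  have h2 := hmk _ (show FreeGroup.of Gen.b ^ 2 ∈ rels n from Or.inr (Or.inl rfl))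
  have h3 := hmk _ (show FreeGroup.of Gen.b * FreeGroup.of Gen.a * (FreeGroup.of Gen.b)⁻¹ *
      (FreeGroup.of Gen.a ^ (2 ^ (n - 2) - 1))⁻¹ ∈ rels n from Or.inr (Or.inr rfl))
  have hpow : 2 ^ (n - 1) = 2 * 2 ^ (n - 2) := by
    rw [← pow_succ']; congr 1; omega
  have h4 : 4 ≤ 2 ^ (n - 2) := by
    calc 4 = 2 ^ 2 := by norm_num
      _ ≤ 2 ^ (n - 2) := Nat.pow_le_pow_right (by norm_num) (by omega)
  refine ⟨by omega, ?_, ?_, ?_, ?_⟩
  · exact (Nat.even_pow' (by omega)).2 even_two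
  · rw [← hpow]
    rw [map_pow] at h1
    exact h1
  · rw [map_pow] at h2
    exact h2
  · rw [map_mul, map_mul, map_mul, map_inv, map_inv, map_pow] at h3
    exact mul_inv_eq_one.1 h3

/-- Translation by one on `ℤ/2h`. -/
def mA (h : ℕ) : Equiv.Perm (ZMod (2 * h)) := Equiv.addRight 1

theorem sq_one {h : ℕ} (hh : Even h) (z : ZMod (2 * h)) :
    ((h : ZMod (2 * h)) - 1) * (((h : ZMod (2 * h)) - 1) * z) = z := by
  obtain ⟨c, rfl⟩ := hh
  have h0 : ((2 * (c + c) : ℕ) : ZMod (2 * (c + c))) = 0 := ZMod.natCast_self _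
  push_cast at h0 ⊢
  linear_combination (c * z - z) * h0

/-- Multiplication by `h - 1` on `ℤ/2h`. -/
def mB {h : ℕ} (hh : Even h) : Equiv.Perm (ZMod (2 * h)) where
  toFun z := ((h : ZMod (2 * h)) - 1) * z
  invFun z := ((h : ZMod (2 * h)) - 1) * z
  left_inv := sq_one hh
  right_inv := sq_one hh

theorem mA_pow (h k : ℕ) (z : ZMod (2 * h)) : (mA h ^ k) z = z + k := by
  induction k with
  | zero => simp
  | succ k ih =>
    rw [pow_succ', Equiv.Perm.mul_apply, ih]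
    simp [mA, add_assoc]

theorem even_two_pow (hn : 4 ≤ n) : Even (2 ^ (n - 2)) :=
  (Nat.even_pow' (by omega)).2 even_two

/-- The images of the generators. -/
def genMap (hn : 4 ≤ n) : Gen → Equiv.Perm (ZMod (2 * 2 ^ (n - 2)))
  | .a => mA _
  | .b => mB (even_two_pow n hn)

theorem genMap_rel (hn : 4 ≤ n) : ∀ r ∈ rels n, FreeGroup.lift (genMap n hn) r = 1 := by
  have hpow : 2 ^ (n - 1) = 2 * 2 ^ (n - 2) := by
    rw [← pow_succ']; congr 1; omega
  have h4 : 1 ≤ 2 ^ (n - 2) := Nat.one_le_two_pow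
  rintro r (rfl | rfl | rfl)
  · rw [map_pow, FreeGroup.lift_apply_of]
    ext z : 1
    show (mA _ ^ _) z = z
    rw [mA_pow, hpow, ZMod.natCast_self, add_zero]
  · rw [map_pow, FreeGroup.lift_apply_of]
    ext z : 1
    rw [pow_two, Equiv.Perm.mul_apply]
    exact sq_one (even_two_pow n hn) z
  · rw [map_mul, map_mul, map_mul, map_inv, map_inv, map_pow, FreeGroup.lift_apply_of,
      FreeGroup.lift_apply_of, mul_inv_eq_one]
    ext z : 1
    have hinv : (genMap n hn .b)⁻¹ = genMap n hn .b := by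
      rw [inv_eq_iff_mul_eq_one]
      ext z : 1
      exact sq_one (even_two_pow n hn) z
    rw [hinv, Equiv.Perm.mul_apply, Equiv.Perm.mul_apply]
    show ((2 ^ (n - 2) : ℕ) - 1 : ZMod (2 * 2 ^ (n - 2))) *
      (((2 ^ (n - 2) : ℕ) - 1 : ZMod (2 * 2 ^ (n - 2))) * z + 1) = (mA _ ^ _) z
    rw [mA_pow, mul_add, sq_one (even_two_pow n hn), mul_one, Nat.cast_sub h4, Nat.cast_one]

/-- The permutation representation. -/
def perm (hn : 4 ≤ n) : SemidihedralGroup n →* Equiv.Perm (ZMod (2 * 2 ^ (n - 2))) :=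
  PresentedGroup.toGroup (genMap_rel n hn)

theorem perm_X (hn : 4 ≤ n) (κ : ℕ) (z : ZMod (2 * 2 ^ (n - 2))) :
    perm n hn (X (ga n) κ) z = z + κ := by
  have e : perm n hn (ga n) = mA _ := PresentedGroup.toGroup.of _
  unfold X
  rw [zpow_natCast, map_pow, e, mA_pow]

theorem perm_Y (hn : 4 ≤ n) (κ : ℕ) (z : ZMod (2 * 2 ^ (n - 2))) :
    perm n hn (Y (ga n) (gb n) κ) z = ((2 ^ (n - 2) : ℕ) - 1 : ZMod (2 * 2 ^ (n - 2))) * z + κ := by
  have e : perm n hn (gb n) = mB (even_two_pow n hn) := PresentedGroup.toGroup.of _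
  have h2 : Y (ga n) (gb n) κ = X (ga n) κ * gb n := rfl
  rw [h2, map_mul, Equiv.Perm.mul_apply, perm_X, e]
  rfl

/-- The order of the semidihedral group is `2^n`. -/
theorem card_eq (hn : 4 ≤ n) : Nat.card (SemidihedralGroup n) = 2 ^ n := by
  have hpow : 2 ^ n = 2 * (2 * 2 ^ (n - 2)) := by
    rw [← pow_succ', ← pow_succ']; congr 1; omega
  have h4 : 4 ≤ 2 ^ (n - 2) := by
    calc 4 = 2 ^ 2 := by norm_num
      _ ≤ 2 ^ (n - 2) := Nat.pow_le_pow_right (by norm_num) (by omega)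
  let F : Fin (2 * 2 ^ (n - 2)) × Bool → SemidihedralGroup n := fun p =>
    if p.2 then Y (ga n) (gb n) (p.1 : ℕ) else X (ga n) (p.1 : ℕ)
  have hsurj : Function.Surjective F := by
    intro g
    obtain ⟨κ, hκ, hg | hg⟩ := exists_rep (rel_gen n hn) (closure_gen n) g
    · exact ⟨(⟨κ, hκ⟩, false), by simp [F, hg]⟩
    · exact ⟨(⟨κ, hκ⟩, true), by simp [F, hg]⟩
  have hcast : ∀ κ κ' : ℕ, κ < 2 * 2 ^ (n - 2) → κ' < 2 * 2 ^ (n - 2) →
      (κ : ZMod (2 * 2 ^ (n - 2))) = κ' → κ = κ' := by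
    intro κ κ' h1 h2 h3
    rw [ZMod.natCast_eq_natCast_iff'] at h3
    rwa [Nat.mod_eq_of_lt h1, Nat.mod_eq_of_lt h2] at h3
  have hne : ((2 ^ (n - 2) : ℕ) - 1 : ZMod (2 * 2 ^ (n - 2))) ≠ 1 := by
    intro h
    have h5 : ((2 ^ (n - 2) : ℕ) : ZMod (2 * 2 ^ (n - 2))) = ((2 : ℕ) : ZMod _) := by
      push_cast at h ⊢
      linear_combination h
    have := hcast _ _ (by omega) (by omega) h5
    omega
  have hinj : Function.Injective F := by
    rintro ⟨⟨κ, hκ⟩, t⟩ ⟨⟨κ', hκ'⟩, t'⟩ h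
    have e0 := congrArg (fun g => perm n hn g 0) h
    have e1 := congrArg (fun g => perm n hn g 1) h
    cases t <;> cases t' <;>
      simp only [F, if_true, Bool.false_eq_true, if_false, perm_X, perm_Y, mul_zero, zero_add,
        mul_one] at e0 e1 <;> have e2 := hcast _ _ hκ hκ' e0
    · simp [e2]
    · exfalso
      rw [e0] at e1
      exact hne (add_right_cancel e1).symm
    · exfalso
      rw [e0] at e1
      exact hne (add_right_cancel e1)
    · simp [e2]
  rw [← Nat.card_congr (Equiv.ofBijective F ⟨hinj, hsurj⟩), hpow]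
  simp [mul_comm]

end

/-- **Theorem.** The semidihedral group `SD_{2^n}` is harmonious for every `n ≥ 4`. -/
theorem result : ∀ n : ℕ, 4 ≤ n → Harmonious (SemidihedralGroup n) := by
  intro n hn
  have hcard := card_eq n hn
  have R := rel_gen n hn
  have hfin : Finite (SemidihedralGroup n) :=
    Nat.finite_of_card_ne_zero (by rw [hcard]; positivity)
  have hpow : 2 ^ n = 4 * 2 ^ (n - 2) := by
    have : (4 : ℕ) = 2 ^ 2 := by norm_num
    rw [this, ← pow_add]; congr 1; omega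
  rcases Nat.eq_or_lt_of_le hn with rfl | hn5
  · -- `n = 4`
    refine harmonious_of_cover (L4 (ga 4) (gb 4)) (by rw [hcard]; rfl) ?_ ?_
    · intro g
      obtain ⟨κ, hκ, rfl | rfl⟩ := exists_rep R (closure_gen 4) g
      · exact X_mem4 κ hκ
      · exact Y_mem4 κ hκ
    · intro g
      obtain ⟨κ, hκ, rfl | rfl⟩ := exists_rep R (closure_gen 4) g
      · exact X_cyc4 R κ hκ
      · exact Y_cyc4 R κ hκ
  · -- `n ≥ 5`
    obtain ⟨c, hc⟩ : ∃ c, 2 ^ (n - 2) = 8 * c := by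
      refine ⟨2 ^ (n - 5), ?_⟩
      have : (8 : ℕ) = 2 ^ 3 := by norm_num
      rw [this, ← pow_add]; congr 1; omega
    have hc1 : 1 ≤ c := by
      rcases Nat.eq_zero_or_pos c with rfl | h
      · have := Nat.two_pow_pos (n - 2); omega
      · exact h
    have hT : 2 ^ (n - 2) = 2 * (4 * c - 3) + 6 := by omega
    have hT1 : 1 ≤ 4 * c - 3 := by omega
    have h4 : 2 ^ (n - 2) % 4 = 0 := by omega
    refine harmonious_of_cover (L (ga n) (gb n) (2 ^ (n - 2)) (4 * c - 3))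
      (by rw [hcard, length_L]; omega) ?_ ?_
    · intro g
      obtain ⟨κ, hκ, rfl | rfl⟩ := exists_rep R (closure_gen n) g
      · exact X_mem R hT h4 κ hκ
      · exact Y_mem R hT h4 κ hκ
    · intro g
      obtain ⟨κ, hκ, rfl | rfl⟩ := exists_rep R (closure_gen n) g
      · exact X_cyc R hT hT1 h4 κ hκ
      · exact Y_cyc R hT hT1 h4 κ hκ

end Pool.Agent.Results.MP_3abf0f_al.SemidihedralHarmonious
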